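import Mathlib
import Pool.Agent.H253Z.GuDefs
import Pool.Agent.H253Z.GuH

set_option autoImplicit false

open scoped Manifold ContDiff ENNReal
open MeasureTheory Pool.Agent.H253Z.Gu

namespace Pool.Agent.Results.MP_6c73b3_gt.ALensCounter

/-- In every odd dimension `n ≥ 3` and for every `κ > 0` there is a closed connected smooth
Riemannian `n`-manifold with strictly positive Ricci curvature in which every geodesically convex
subset has volume less than `κ` times the volume of the manifold. -/
theorem result (n : ℕ) (hn : 3 ≤ n) (ho : Odd n) (κ : ℝ) (hκ : 0 < κ) :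
    ∃ (M : Type) (_ : TopologicalSpace M) (_ : T2Space M) (_ : CompactSpace M)
      (_ : ConnectedSpace M) (_ : ChartedSpace (Eu n) M) (_ : IsManifold (𝓡 n) ∞ M)
      (_ : MeasurableSpace M) (_ : BorelSpace M) (g : RMetric (Eu n) M) (μ : Measure M),
      PosRicci g ∧ IsVolume g μ ∧
        ∀ Γ : Set M, GeodConvex g Γ → μ Γ < ENNReal.ofReal κ * μ Set.univ := by
  obtain ⟨k, hk⟩ := ho
  obtain ⟨c⟩ := exists_CS (W := WW (Eu n)) (m := k + 1) (by rw [finrank_WW]; omega)
  obtain ⟨p, hp, h⟩ := small_convex c (by omega) hκ
  have hr : 1 < Module.rank ℝ (WW (Eu n)) := by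
    rw [← Module.finrank_eq_rank, finrank_WW]
    exact_mod_cast (show 1 < n + 1 by omega)
  exact ⟨Lens c p, inferInstance, inferInstance, inferInstance, connectedSpace_lens c p hr,
    inferInstance, inferInstance, inferInstance, inferInstance, lensRM c p, lensVol c p,
    posRicci_lens c p (by omega), isVolume_lens c p, h⟩

end Pool.Agent.Results.MP_6c73b3_gt.ALensCounter
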